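import Mathlib
import Pool.Agent.Lib.MP_02be1f_lc.Language

open MeasureTheory Filter Topology
open Pool.Agent.Lib.MP_02be1f_lc

namespace Pool.Agent.Results.MP_02be1f_lc.NoncomputableLanguage

/-- There is a shift-invariant, computable probability measure `μ` on `{0,1}^ℤ`, of full support,
whose limit language `L_μ(F)` under the XOR automaton is not a computable set of words. -/
theorem result :
    ∃ μ : ProbabilityMeasure Config,
      (μ : Measure Config).map shift = (μ : Measure Config) ∧
      IsComputableMeasure (μ : Measure Config) ∧
      (∀ w : List Bool, (μ : Measure Config) (cyl w) ≠ 0) ∧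
      ¬ ComputablePred (fun w : List Bool => w ∈ limitLanguage (μ : Measure Config)) :=
  ⟨⟨mu2, inferInstance⟩, mu2_shift, mu2_computable, mu2_full, limitLanguage_not_computable⟩

end Pool.Agent.Results.MP_02be1f_lc.NoncomputableLanguage
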