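import Mathlib
import Pool.Agent.Lib.MP_02be1f_lc.Halting

open MeasureTheory Filter Topology
open Pool.Agent.Lib.MP_02be1f_lc

namespace Pool.Agent.Results.MP_02be1f_lc.NoncomputableLimit

/-- There are probability measures `μ`, `ν` on `{0,1}^ℤ` such that `μ` is shift-invariant,
computable and of full support, the whole sequence `F^n μ` converges weak-* to `ν`, and the limit
`ν` is not computable. -/
theorem result :
    ∃ μ ν : ProbabilityMeasure Config,
      (μ : Measure Config).map shift = (μ : Measure Config) ∧
      IsComputableMeasure (μ : Measure Config) ∧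
      (∀ w : List Bool, (μ : Measure Config) (cyl w) ≠ 0) ∧
      Tendsto (fun n : ℕ => μ.map (f := F^[n]) (measurable_F.iterate n).aemeasurable)
        atTop (𝓝 ν) ∧
      (∀ w : List Bool, Tendsto (fun n : ℕ => ((μ : Measure Config).map (F^[n])) (cyl w))
        atTop (𝓝 ((ν : Measure Config) (cyl w)))) ∧
      ¬ IsComputableMeasure (ν : Measure Config) := by
  refine ⟨⟨mu, inferInstance⟩, ⟨nu, inferInstance⟩, mu_shift, mu_computable, mu_full, ?_, ?_,
    nu_not_computable⟩
  · apply tendsto_probabilityMeasure
    intro A hA
    exact mu_tendsto hA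
  · intro w
    have h := mu_tendsto (measurableSet_cyl w)
    have hprob : ∀ n, IsProbabilityMeasure (mu.map (F^[n])) := fun n =>
      Measure.isProbabilityMeasure_map (measurable_F.iterate n).aemeasurable
    exact (ENNReal.tendsto_toReal_iff (fun n => measure_ne_top (mu.map (F^[n])) _)
      (measure_ne_top nu _)).1 h

end Pool.Agent.Results.MP_02be1f_lc.NoncomputableLimit
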